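import Pool.Agent.TH38.RK.Stmts

/-!
# The algebraic part of the Zassenhaus lemma for `SL(2,ℂ)`
-/

set_option autoImplicit false

namespace Pool.Agent.TH63.RK

open Pool.Agent.TH38.RK

lemma sl_ext {g h : SL} (h00 : (g : Mat) 0 0 = (h : Mat) 0 0) (h01 : (g : Mat) 0 1 = (h : Mat) 0 1)
    (h10 : (g : Mat) 1 0 = (h : Mat) 1 0) (h11 : (g : Mat) 1 1 = (h : Mat) 1 1) : g = h := by
  ext i j
  fin_cases i <;> fin_cases j
  exacts [h00, h01, h10, h11]

lemma sl_det (g : SL) : (g : Mat) 0 0 * (g : Mat) 1 1 - (g : Mat) 0 1 * (g : Mat) 1 0 = 1 := by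
  have := g.2
  rwa [Matrix.det_fin_two] at this

/-- the entries of a product -/
lemma mul_entry (g h : SL) (i j : Fin 2) :
    ((g * h : SL) : Mat) i j = (g : Mat) i 0 * (h : Mat) 0 j + (g : Mat) i 1 * (h : Mat) 1 j := by
  rw [Matrix.SpecialLinearGroup.coe_mul, Matrix.mul_apply, Fin.sum_univ_two]

lemma inv_entry (g : SL) : ((g⁻¹ : SL) : Mat) 0 0 = (g : Mat) 1 1 ∧
    ((g⁻¹ : SL) : Mat) 0 1 = -(g : Mat) 0 1 ∧ ((g⁻¹ : SL) : Mat) 1 0 = -(g : Mat) 1 0 ∧
    ((g⁻¹ : SL) : Mat) 1 1 = (g : Mat) 0 0 := by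
  rw [Matrix.SpecialLinearGroup.coe_inv, Matrix.adjugate_fin_two]
  simp

/-- the trace -/
noncomputable def tr (g : SL) : ℂ := (g : Mat) 0 0 + (g : Mat) 1 1

lemma tr_conj (g h : SL) : tr (g * h * g⁻¹) = tr h := by
  unfold tr
  obtain ⟨i1, i2, i3, i4⟩ := inv_entry g
  have hd := sl_det g
  simp only [mul_entry, i1, i2, i3, i4]
  linear_combination ((h : Mat) 0 0 + (h : Mat) 1 1) * hd

/-- Every element of `SL(2,ℂ)` is conjugate to an upper triangular one, which is diagonal if the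
eigenvalues are different. -/
lemma exists_upper (u : SL) : ∃ g : SL, ((g * u * g⁻¹ : SL) : Mat) 1 0 = 0 := by
  obtain ⟨a, ha⟩ : ∃ a, a = (u : Mat) 0 0 := ⟨_, rfl⟩
  obtain ⟨b, hb⟩ : ∃ b, b = (u : Mat) 0 1 := ⟨_, rfl⟩
  obtain ⟨c, hc⟩ : ∃ c, c = (u : Mat) 1 0 := ⟨_, rfl⟩
  obtain ⟨d, hd⟩ : ∃ d, d = (u : Mat) 1 1 := ⟨_, rfl⟩
  by_cases hc0 : c = 0
  · refine ⟨1, ?_⟩
    rw [one_mul, inv_one, mul_one, ← hc, hc0]
  -- a root `z` of `c z² + (d - a) z - b = 0`: `(z, 1)` is an eigenvector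
  obtain ⟨s, hs⟩ := IsAlgClosed.exists_pow_nat_eq ((d - a) ^ 2 + 4 * b * c) (n := 2) (by norm_num)
  obtain ⟨z, hz⟩ : ∃ z, z = (a - d + s) / (2 * c) := ⟨_, rfl⟩
  have hz2 : c * z ^ 2 + (d - a) * z - b = 0 := by
    rw [hz]
    field_simp
    linear_combination hs
  -- `g⁻¹` has first column `(z, 1)`: `g⁻¹ = [z, -1; 1, 0]`, `g = [0, 1; -1, z]`
  obtain ⟨g, hg⟩ : ∃ g : SL, (g : Mat) = !![0, 1; -1, z] :=
    ⟨⟨!![0, 1; -1, z], by simp [Matrix.det_fin_two]⟩, rfl⟩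
  have g00 : (g : Mat) 0 0 = 0 := by rw [hg]; rfl
  have g01 : (g : Mat) 0 1 = 1 := by rw [hg]; rfl
  have g10 : (g : Mat) 1 0 = -1 := by rw [hg]; rfl
  have g11 : (g : Mat) 1 1 = z := by rw [hg]; rfl
  refine ⟨g, ?_⟩
  obtain ⟨i1, i2, i3, i4⟩ := inv_entry g
  simp only [mul_entry, i1, i3, g01, g10, g11, ← ha, ← hb, ← hc, ← hd]
  linear_combination hz2

/-- The claim for upper triangular `u`. -/
lemma step_upper (u x w : SL) (hu : (u : Mat) 1 0 = 0) (hw : w = u * x * u⁻¹ * x⁻¹)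
    (htr : tr w ≠ 0) (h : u * (w * u * w⁻¹) = w * u * w⁻¹ * u) : u * w = w * u := by
  obtain ⟨l, hl⟩ : ∃ l, l = (u : Mat) 0 0 := ⟨_, rfl⟩
  obtain ⟨s, hs⟩ : ∃ s, s = (u : Mat) 0 1 := ⟨_, rfl⟩
  obtain ⟨m, hm⟩ : ∃ m, m = (u : Mat) 1 1 := ⟨_, rfl⟩
  obtain ⟨a, ha⟩ : ∃ a, a = (w : Mat) 0 0 := ⟨_, rfl⟩
  obtain ⟨b, hb⟩ : ∃ b, b = (w : Mat) 0 1 := ⟨_, rfl⟩
  obtain ⟨c, hc⟩ : ∃ c, c = (w : Mat) 1 0 := ⟨_, rfl⟩
  obtain ⟨d, hd⟩ : ∃ d, d = (w : Mat) 1 1 := ⟨_, rfl⟩
  have hlm : l * m = 1 := by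
    have := sl_det u
    rw [hu, ← hl, ← hm] at this
    linear_combination this
  have hdet : a * d - b * c = 1 := by
    have := sl_det w
    rwa [← ha, ← hb, ← hc, ← hd] at this
  have htr' : a + d ≠ 0 := by
    rw [ha, hd]
    exact htr
  obtain ⟨i1, i2, i3, i4⟩ := inv_entry w
  -- the entries of the commutation relation
  have e01 : (((u * (w * u * w⁻¹) : SL)) : Mat) 0 1 = ((w * u * w⁻¹ * u : SL) : Mat) 0 1 := by rw [h]
  have e10 : (((u * (w * u * w⁻¹) : SL)) : Mat) 1 0 = ((w * u * w⁻¹ * u : SL) : Mat) 1 0 := by rw [h]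
  have e00 : (((u * (w * u * w⁻¹) : SL)) : Mat) 0 0 = ((w * u * w⁻¹ * u : SL) : Mat) 0 0 := by rw [h]
  simp only [mul_entry, i1, i2, i3, i4, hu, ← hl, ← hs, ← hm, ← ha, ← hb, ← hc, ← hd] at e01 e10 e00
  -- goal entries
  have hgoal : (s * c = 0 ∧ c * (l - m) = 0 ∧ b * (l - m) = s * (a - d)) → u * w = w * u := by
    rintro ⟨g1, g2, g3⟩
    apply sl_ext
    · simp only [mul_entry, hu, ← hl, ← hs, ← hm, ← ha, ← hb, ← hc, ← hd]
      linear_combination g1
    · simp only [mul_entry, hu, ← hl, ← hs, ← hm, ← ha, ← hb, ← hc, ← hd]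
      linear_combination g3
    · simp only [mul_entry, hu, ← hl, ← hs, ← hm, ← ha, ← hb, ← hc, ← hd]
      linear_combination -g2
    · simp only [mul_entry, hu, ← hl, ← hs, ← hm, ← ha, ← hb, ← hc, ← hd]
      linear_combination -g1
  apply hgoal
  have h01 : (l - m) * (a * (a * s - b * (l - m))) = s * ((a * d + b * c) * (l - m) - 2 * a * c * s) := by
    linear_combination e01
  have h10 : (l - m) * (c * (d * (l - m) - c * s)) = 0 := by
    linear_combination -e10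
  have h00 : s * (c * (d * (l - m) - c * s)) = 0 := by
    linear_combination e00
  by_cases hlm' : l = m
  · rw [hlm', sub_self]
    by_cases hs0 : s = 0
    · rw [hs0]
      simp
    · have hc0 : c = 0 := by
        rw [hlm', sub_self, mul_zero, zero_sub] at h00
        have h1 : s * (c * (c * s)) = 0 := by linear_combination -h00
        rcases mul_eq_zero.mp h1 with h | h
        · exact absurd h hs0
        · rcases mul_eq_zero.mp h with h | h
          · exact h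
          · rcases mul_eq_zero.mp h with h | h
            · exact h
            · exact absurd h hs0
      -- the entries of `w = u x u⁻¹ x⁻¹`
      obtain ⟨p, hp⟩ : ∃ p, p = (x : Mat) 0 0 := ⟨_, rfl⟩
      obtain ⟨q, hq⟩ : ∃ q, q = (x : Mat) 0 1 := ⟨_, rfl⟩
      obtain ⟨r, hr⟩ : ∃ r, r = (x : Mat) 1 0 := ⟨_, rfl⟩
      obtain ⟨t, ht⟩ : ∃ t, t = (x : Mat) 1 1 := ⟨_, rfl⟩
      have hdx : p * t - q * r = 1 := by
        have := sl_det x
        rwa [← hp, ← hq, ← hr, ← ht] at this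
      obtain ⟨j1, j2, j3, j4⟩ := inv_entry x
      obtain ⟨k1, k2, k3, k4⟩ := inv_entry u
      have w10 : (w : Mat) 1 0 = ((u * x * u⁻¹ * x⁻¹ : SL) : Mat) 1 0 := by rw [← hw]
      have w00 : (w : Mat) 0 0 = ((u * x * u⁻¹ * x⁻¹ : SL) : Mat) 0 0 := by rw [← hw]
      have w11 : (w : Mat) 1 1 = ((u * x * u⁻¹ * x⁻¹ : SL) : Mat) 1 1 := by rw [← hw]
      simp only [mul_entry, j1, j2, j3, j4, k1, k2, k3, k4, hu, ← hl, ← hs, ← hm, ← hp, ← hq, ← hr,
        ← ht, ← ha, ← hc, ← hd] at w10 w00 w11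
      have hm2 : m * m = 1 := by
        rw [hlm'] at hlm
        exact hlm
      rw [hlm'] at w10 w00 w11
      rw [hc0] at w10
      have h2 : m * s * (r * r) = 0 := by linear_combination -w10
      have hm0 : m ≠ 0 := by
        rintro rfl
        simp at hm2
      have hr0 : r = 0 := by
        rcases mul_eq_zero.mp h2 with h | h
        · rcases mul_eq_zero.mp h with h | h
          · exact absurd h hm0
          · exact absurd h hs0
        · exact mul_self_eq_zero.mp h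
      rw [hr0] at w00 w11 hdx
      refine ⟨by rw [hc0, mul_zero], by rw [mul_zero], ?_⟩
      have had : a - d = 0 := by
        linear_combination w00 - w11
      rw [had]
      simp
  · have hne : l - m ≠ 0 := sub_ne_zero.mpr hlm'
    have hB : c * (d * (l - m) - c * s) = 0 := by
      rcases mul_eq_zero.mp h10 with h | h
      · exact absurd h hne
      · exact h
    rcases mul_eq_zero.mp hB with hc0 | hc0
    · rw [hc0] at h01 hdet ⊢
      refine ⟨by ring, by ring, ?_⟩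
      apply mul_left_cancel₀ hne
      have had : a * d = 1 := by linear_combination hdet
      linear_combination (-d) * h01 + ((l - m) * (a * s - b * (l - m)) - s * d * (l - m)) * had
    · exfalso
      have h1 : (l - m) ^ 2 * (a + d) = 0 := by
        linear_combination c * h01 - (-(l - m) * a ^ 2 - 2 * a * d * (l - m) +
          (b * c - a * d) * (l - m) + 2 * a * (d * (l - m) - c * s)) * hc0 -
          (l - m) ^ 2 * (a + d) * hdet
      rcases mul_eq_zero.mp h1 with h | h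
      · exact hne (pow_eq_zero_iff (two_ne_zero) |>.mp h)
      · exact htr' h

/-- **The claim**: if `w = [u, x]` has nonzero trace and `u` commutes with `[u, w]`, then `u` commutes
with `w`. -/
lemma step (u x w : SL) (hw : w = u * x * u⁻¹ * x⁻¹) (htr : tr w ≠ 0)
    (h : u * (u * w * u⁻¹ * w⁻¹) = u * w * u⁻¹ * w⁻¹ * u) : u * w = w * u := by
  -- `u` commutes with `w u w⁻¹`
  have h1 : u * (w * u * w⁻¹) = w * u * w⁻¹ * u := by
    have h2 : u * (w * u⁻¹ * w⁻¹) = w * u⁻¹ * w⁻¹ * u := by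
      apply mul_left_cancel (a := u)
      simpa only [mul_assoc] using h
    have h3 : Commute u (w * u⁻¹ * w⁻¹) := h2
    have h4 := h3.inv_right
    have e : (w * u⁻¹ * w⁻¹)⁻¹ = w * u * w⁻¹ := by group
    rw [e] at h4
    exact h4
  obtain ⟨g, hg⟩ := exists_upper u
  have h5 := step_upper (g * u * g⁻¹) (g * x * g⁻¹) (g * w * g⁻¹) hg (by rw [hw]; group)
    (by rw [tr_conj]; exact htr) (by
      have e1 : g * u * g⁻¹ * (g * w * g⁻¹ * (g * u * g⁻¹) * (g * w * g⁻¹)⁻¹) =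
          g * (u * (w * u * w⁻¹)) * g⁻¹ := by group
      have e2 : g * w * g⁻¹ * (g * u * g⁻¹) * (g * w * g⁻¹)⁻¹ * (g * u * g⁻¹) =
          g * (w * u * w⁻¹ * u) * g⁻¹ := by group
      rw [e1, e2, h1])
  have e3 : g * u * g⁻¹ * (g * w * g⁻¹) = g * (u * w) * g⁻¹ := by group
  have e4 : g * w * g⁻¹ * (g * u * g⁻¹) = g * (w * u) * g⁻¹ := by group
  rw [e3, e4] at h5
  exact mul_left_cancel (mul_right_cancel h5)

end Pool.Agent.TH63.RK
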